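import Pool.Agent.Helper1.TZ.Level
import Pool.Agent.Helper1.TZ.Count

/-!
# Trapezoidal pairs for almost all ratios

If `(a, b, m, n)` is a counterexample then a divisor `ρ` of `a` or of `b` satisfies
`(a + b) j = ρ w + 1` with `j < m / a` and `w ≤ (m / a) ^ 2 - 3 (m / a) + 1`. For bounded `m / a`
this holds for few pairs `(a, b)` only.
-/

set_option autoImplicit false

namespace Pool.Agent.Results.MP_2d59ee_ag.AlmostAllRatios

open MvPolynomial Pool.Agent.TH207 Pool.Agent.Helper1.TZ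

theorem result (P Y : ℕ) (_hP : 1 ≤ P) :
    ∃ S : Finset (ℕ × ℕ), (S.card : ℝ) ≤ 2 * P ^ 2 * (Y + P ^ 2) * (1 + Real.log P) ∧
      ∀ (a b m n : ℕ), 0 < m → m < n → a ∣ m → a ∣ n → Nat.gcd a b = 1 → 2 ≤ a → a < b →
        b ≤ Y → m ≤ P * a →
      ∀ F G : MvPolynomial (Fin 2) ℂ,
        convexHull ℝ (insert ((0:ℝ), (0:ℝ))
          ((fun d : Fin 2 →₀ ℕ => ((d 0 : ℝ), (d 1 : ℝ))) '' (↑F.support : Set (Fin 2 →₀ ℕ))))
          = {p : ℝ × ℝ | 0 ≤ p.2 ∧ p.2 ≤ (n : ℝ) ∧ 0 ≤ p.1 ∧ p.1 ≤ (m : ℝ) + (n : ℝ) - p.2} →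
        convexHull ℝ (insert ((0:ℝ), (0:ℝ))
          ((fun d : Fin 2 →₀ ℕ => ((d 0 : ℝ), (d 1 : ℝ))) ''
            (↑(F - X 0 ^ m * X 1 ^ n).support : Set (Fin 2 →₀ ℕ))))
          ⊂ convexHull ℝ (insert ((0:ℝ), (0:ℝ))
          ((fun d : Fin 2 →₀ ℕ => ((d 0 : ℝ), (d 1 : ℝ))) '' (↑F.support : Set (Fin 2 →₀ ℕ)))) →
        (∀ i : ℕ, i ≤ m →
          ((X 0 + 1 : MvPolynomial (Fin 2) ℂ) ^ (m - i)) ∣
            weightedHomogeneousComponent (![(0:ℕ), 1] : Fin 2 → ℕ) (n - i) F) →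
        (∀ i : ℕ, i ≤ n →
          ((X 0 + X 1 : MvPolynomial (Fin 2) ℂ) ^ (n - i)) ∣
            homogeneousComponent (m + n - i) F) →
        convexHull ℝ (insert ((0:ℝ), (0:ℝ))
          ((fun d : Fin 2 →₀ ℕ => ((d 0 : ℝ), (d 1 : ℝ))) '' (↑G.support : Set (Fin 2 →₀ ℕ))))
          = {p : ℝ × ℝ | 0 ≤ p.2 ∧ p.2 ≤ ((b * n / a : ℕ) : ℝ) ∧ 0 ≤ p.1 ∧
              p.1 ≤ ((b * m / a : ℕ) : ℝ) + ((b * n / a : ℕ) : ℝ) - p.2} →
        convexHull ℝ (insert ((0:ℝ), (0:ℝ))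
          ((fun d : Fin 2 →₀ ℕ => ((d 0 : ℝ), (d 1 : ℝ))) ''
            (↑(G - X 0 ^ (b * m / a) * X 1 ^ (b * n / a)).support : Set (Fin 2 →₀ ℕ))))
          ⊂ convexHull ℝ (insert ((0:ℝ), (0:ℝ))
          ((fun d : Fin 2 →₀ ℕ => ((d 0 : ℝ), (d 1 : ℝ))) '' (↑G.support : Set (Fin 2 →₀ ℕ)))) →
        (∃ c : ℂ, pderiv 0 F * pderiv 1 G - pderiv 1 F * pderiv 0 G = C c) →
        pderiv 0 F * pderiv 1 G - pderiv 1 F * pderiv 0 G ≠ 0 →
        (a, b) ∈ S ∧ ∃ j ρ w : ℕ, 0 < j ∧ j < m / a ∧ 0 < w ∧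
          w + 3 * (m / a) ≤ (m / a) ^ 2 + 1 ∧ m / a + w < n / a ∧
          (a + b) * j = ρ * w + 1 ∧ (ρ ∣ a ∨ ρ ∣ b) := by
  refine ⟨S1 Y P (P * P) ∪ S2 Y P (P * P), ?_, ?_⟩
  · have := card_S Y P (P * P)
    push_cast at this
    rw [pow_two]
    exact this
  intro a b m n hm hmn ham han hab ha hlt hbY hmP F G h1 _ _ h3 h4 _ h5 h6
  obtain ⟨c, hc⟩ := h5
  have hc0 : c ≠ 0 := by
    rintro rfl
    rw [map_zero] at hc
    exact h6 hc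
  obtain ⟨p, rfl⟩ := ham
  obtain ⟨q, rfl⟩ := han
  have ha0 : 0 < a := by omega
  have hp : 0 < p := Nat.pos_of_ne_zero (by rintro rfl; simp at hm)
  have hpq : p < q := Nat.lt_of_mul_lt_mul_left hmn
  have hpP : p ≤ P := Nat.le_of_mul_le_mul_left (by rw [mul_comm a P]; exact hmP) ha0
  have e1 : b * (a * q) / a = b * q := by
    have : b * (a * q) = b * q * a := by ring
    rw [this, Nat.mul_div_cancel _ ha0]
  have e2 : b * (a * p) / a = b * p := by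
    have : b * (a * p) = b * p * a := by ring
    rw [this, Nat.mul_div_cancel _ ha0]
  rw [e1, e2] at h4
  obtain ⟨f1, f2⟩ := Tz.hull (Nat.mul_pos ha0 (by omega)) h1
  obtain ⟨g1, g2⟩ := Tz.hull (Nat.mul_pos (by omega) (by omega)) h4
  obtain ⟨n0, u0, i0, i1, i2, i3⟩ := Pool.Agent.Helper1.TZ.main ha (by omega) hab hp hpq hc0 hc
    f1 f2 h3 (fun d hd => (g1 d hd).2) g2
  have hz : (p : ℤ) ≤ P := by exact_mod_cast hpP
  have hz1 : (1 : ℤ) ≤ p := by exact_mod_cast hp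
  rw [Nat.mul_div_cancel_left _ ha0, Nat.mul_div_cancel_left _ ha0]
  constructor
  · apply mem_S ha hlt hbY
    apply i3.mono
    · zify; linarith
    · zify; nlinarith
  · obtain ⟨j, ρ, w, k1, k2, k3, k4, k5, k6⟩ := i3
    refine ⟨j, ρ, w, k1, ?_, k3, ?_, ?_, k5, k6⟩
    · have : (j : ℤ) ≤ n0 := by exact_mod_cast k2
      zify; linarith
    · have : (w : ℤ) ≤ u0 := by exact_mod_cast k4
      zify; linarith
    · have : (w : ℤ) ≤ u0 := by exact_mod_cast k4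
      zify; linarith

end Pool.Agent.Results.MP_2d59ee_ag.AlmostAllRatios
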