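import Pool.Agent.Helper1.CP.Ray2
import Pool.Agent.Helper1.CP.Hul
import Pool.Agent.Helper1.CP.Rep1
import Pool.Agent.Helper1.CP.Rep2

/-!
# The parameters of the counterexamples to the trapezoid conjecture are closed under composition

If `(F, G)` and `(A, B)` satisfy the conditions 1 to 5 of the problem, for the parameters
`(a, b, m, n)` and `(a', b', m', n')`, with nonzero brackets, then so do
`(F(A, B), G(A, B))`, `(F(A, B + A ^ k), G(A, B + A ^ k))` and, up to constant factors,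
`(F(B + A ^ k, A), G(B + A ^ k, A))`, `k > b' / a'`, for the ratio `(a, b)` of the first pair and the
slope `n' / m'` of the second one. Consequences: the conjecture is equivalent to its restriction to
any set of parameters that meets every ray `{(a, b, j m, j n) : j ≥ 1}`; the ratios and the slopes of
the counterexamples are independent.

Authors: helper1 (composition, support of `G`, brackets), helper63 (hull of the support), helper49
and helper95 (the divisibility conditions and the substitution `f(z - 1, w + 1 - z)`).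
-/

set_option autoImplicit false

open MvPolynomial

namespace Pool.Agent.Results.MP_2d59ee_ag.Composition

/-- the hull of the support and the origin -/
def N0 (f : MvPolynomial (Fin 2) ℂ) : Set (ℝ × ℝ) :=
  convexHull ℝ (insert ((0:ℝ), (0:ℝ))
    ((fun d : Fin 2 →₀ ℕ => ((d 0 : ℝ), (d 1 : ℝ))) '' (↑f.support : Set (Fin 2 →₀ ℕ))))

/-- the trapezoid `T_{m,n}` -/
def T (m n : ℕ) : Set (ℝ × ℝ) :=
  {p | 0 ≤ p.2 ∧ p.2 ≤ (n : ℝ) ∧ 0 ≤ p.1 ∧ p.1 ≤ (m : ℝ) + (n : ℝ) - p.2}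

/-- the conditions 1 to 4 of the problem -/
def Conditions (a b m n : ℕ) (F G : MvPolynomial (Fin 2) ℂ) : Prop :=
  (N0 F = T m n ∧ N0 (F - X 0 ^ m * X 1 ^ n) ⊂ N0 F) ∧
  (∀ i : ℕ, i ≤ m → ((X 0 + 1 : MvPolynomial (Fin 2) ℂ) ^ (m - i)) ∣
      weightedHomogeneousComponent (![(0:ℕ), 1] : Fin 2 → ℕ) (n - i) F) ∧
  (∀ i : ℕ, i ≤ n → ((X 0 + X 1 : MvPolynomial (Fin 2) ℂ) ^ (n - i)) ∣
      homogeneousComponent (m + n - i) F) ∧
  (N0 G = T (b * m / a) (b * n / a) ∧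
    N0 (G - X 0 ^ (b * m / a) * X 1 ^ (b * n / a)) ⊂ N0 G)

/-- `(a, b, m, n)` belongs to `𝒬` -/
def Param (a b m n : ℕ) : Prop :=
  0 < m ∧ m < n ∧ a ∣ m ∧ a ∣ n ∧ Nat.gcd a b = 1 ∧ 2 ≤ a ∧ a < b

/-- the conjecture of the problem fails for the parameters `(a, b, m, n)` of `𝒬`: there are `F, G`
satisfying the conditions 1 to 4 whose bracket is a nonzero constant -/
def Fails (a b m n : ℕ) : Prop :=
  Param a b m n ∧
  ∃ F G : MvPolynomial (Fin 2) ℂ, Conditions a b m n F G ∧ ∃ c : ℂ, c ≠ 0 ∧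
    pderiv 0 F * pderiv 1 G - pderiv 1 F * pderiv 0 G = C c

/-- the conjecture of the problem holds for all parameters with the property `S` -/
def HoldsOn (S : ℕ → ℕ → ℕ → ℕ → Prop) : Prop := ∀ a b m n : ℕ, S a b m n → ¬ Fails a b m n

open Pool.Agent.Helper1.CP in
theorem fails_iff {a b m n : ℕ} : Fails a b m n ↔ InQ a b m n ∧ ∃ F G : P, Kp a b m n F G := by
  constructor
  · rintro ⟨h, F, G, ⟨c1, c2, c3, c4⟩, c, hc, hbr⟩
    obtain ⟨h1, h2, ⟨μ, rfl⟩, ⟨ν, rfl⟩, h5, h6, h7⟩ := h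
    have ha : 0 < a := by omega
    have hb : 0 < b := by omega
    have hν : 0 < a * ν := by omega
    have q2 : ∀ x : ℕ, b * (a * x) / a = b * x := by
      intro x
      rw [show b * (a * x) = a * (b * x) by ring, Nat.mul_div_cancel_left _ ha]
    refine ⟨⟨h1, h2, ⟨μ, rfl⟩, ⟨ν, rfl⟩, h5, h6, h7⟩, F, G,
      (HUL.main _ _ h1 hν F).1 c1, ⟨c2, c3⟩, ?_, c, hc, hbr⟩
    have p1 : 0 < b * (a * μ) / a := by
      rw [q2]; exact Nat.mul_pos hb (Nat.pos_of_mul_pos_left h1)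
    have p2 : 0 < b * (a * ν) / a := by
      rw [q2]; exact Nat.mul_pos hb (Nat.pos_of_mul_pos_left hν)
    exact (HUL.main _ _ p1 p2 G).1 c4
  · rintro ⟨h, F, G, k1, k2, k3, c, hc, hbr⟩
    obtain ⟨h1, h2, ⟨μ, rfl⟩, ⟨ν, rfl⟩, h5, h6, h7⟩ := h
    have ha : 0 < a := by omega
    have hb : 0 < b := by omega
    have hν : 0 < a * ν := by omega
    have q2 : ∀ x : ℕ, b * (a * x) / a = b * x := by
      intro x
      rw [show b * (a * x) = a * (b * x) by ring, Nat.mul_div_cancel_left _ ha]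
    have p1 : 0 < b * (a * μ) / a := by
      rw [q2]; exact Nat.mul_pos hb (Nat.pos_of_mul_pos_left h1)
    have p2 : 0 < b * (a * ν) / a := by
      rw [q2]; exact Nat.mul_pos hb (Nat.pos_of_mul_pos_left hν)
    exact ⟨⟨h1, h2, ⟨μ, rfl⟩, ⟨ν, rfl⟩, h5, h6, h7⟩, F, G,
      ⟨(HUL.main _ _ h1 hν F).2 k1, k2.1, k2.2, (HUL.main _ _ p1 p2 G).2 k3⟩, c, hc, hbr⟩

open Pool.Agent.Helper1.CP in
theorem fails_comp {a b m n a' b' m' n' : ℕ} (h : Fails a b m n) (h' : Fails a' b' m' n') :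
    Fails a b (m' / a' * (a' * m + b' * n)) (n' / a' * (a' * m + b' * n)) := by
  obtain ⟨h1, F, G, h2⟩ := fails_iff.1 h
  obtain ⟨k1, A, B, k2⟩ := fails_iff.1 h'
  exact fails_iff.2 ⟨inq_comp h1 k1, _, _, kp_comp REP1.main REP2.main h1 k1 h2 k2⟩

open Pool.Agent.Helper1.CP in
theorem fails_shear {a b m n a' b' m' n' k : ℕ} (h : Fails a b m n) (h' : Fails a' b' m' n')
    (hk : b' < k * a') : Fails a b ((m + k * n) * m') ((m + k * n) * n') := by
  obtain ⟨h1, F, G, h2⟩ := fails_iff.1 h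
  obtain ⟨k1, A, B, k2⟩ := fails_iff.1 h'
  exact fails_iff.2 ⟨inq_shear h1 k1, _, _, kp_shear REP1.main REP2.main hk h1 k1 h2 k2⟩

open Pool.Agent.Helper1.CP in
theorem fails_ray {a b m n a' b' m' n' k : ℕ} (h : Fails a b m n) (h' : Fails a' b' m' n')
    (hk : b' < k * a') : Fails a b (k * (m + n) * m') (k * (m + n) * n') := by
  obtain ⟨h1, F, G, h2⟩ := fails_iff.1 h
  obtain ⟨k1, A, B, k2⟩ := fails_iff.1 h'
  have hk2 : 2 ≤ k := by
    by_contra hk2
    have h3 : k * a' ≤ 1 * a' := Nat.mul_le_mul_right _ (by omega)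
    have h4 : a' < b' := k1.2.2.2.2.2.2
    omega
  obtain ⟨u, v, h5⟩ := kp_ray REP1.main REP2.main hk2 hk h1 k1 h2 k2
  exact fails_iff.2 ⟨inq_ray h1 k1 (by omega), _, _, h5⟩

theorem joint {S : ℕ → ℕ → ℕ → ℕ → Prop}
    (hS : ∀ a b m n : ℕ, Param a b m n → ∃ j : ℕ, 1 ≤ j ∧ S a b (j * m) (j * n))
    (A : Set (ℕ × ℕ)) (B : Set ℚ)
    (h : HoldsOn (fun a b m n => S a b m n ∧ (a, b) ∈ A ∧ (n / m : ℚ) ∈ B)) :
    HoldsOn (fun a b _ _ => (a, b) ∈ A) ∨ HoldsOn (fun _ _ m n => (n / m : ℚ) ∈ B) := by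
  by_contra hcon
  push Not at hcon
  obtain ⟨hA, hB⟩ := hcon
  unfold HoldsOn at hA hB
  push Not at hA hB
  obtain ⟨a, b, m, n, hab, hf⟩ := hA
  obtain ⟨a', b', m', n', hs, hf'⟩ := hB
  have hP := (fails_ray hf hf' (k := b' * 1) (by
    have h1 : 2 ≤ a' := hf'.1.2.2.2.2.2.1
    have h2 : a' < b' := hf'.1.2.2.2.2.2.2
    nlinarith)).1
  obtain ⟨j, hj, hj2⟩ := hS _ _ _ _ hP
  have hf2 := fails_ray hf hf' (k := b' * j) (by
    have h1 : 2 ≤ a' := hf'.1.2.2.2.2.2.1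
    have h2 : a' < b' := hf'.1.2.2.2.2.2.2
    have h3 : b' * 1 ≤ b' * j := Nat.mul_le_mul_left _ hj
    nlinarith)
  have e : ∀ x : ℕ, j * (b' * 1 * (m + n) * x) = b' * j * (m + n) * x := by intro x; ring
  rw [e, e] at hj2
  refine h _ _ _ _ ⟨hj2, hab, ?_⟩ hf2
  have hpos : 0 < b' * j * (m + n) := by
    have h1 : 0 < m := hf.1.1
    have h2 : 2 ≤ a' := hf'.1.2.2.2.2.2.1
    have h3 : a' < b' := hf'.1.2.2.2.2.2.2
    have h4 : 0 < b' := by omega
    positivity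
  have c1 : ((b' * j * (m + n) : ℕ) : ℚ) ≠ 0 := by exact_mod_cast hpos.ne'
  have e2 : (((b' * j * (m + n) * n' : ℕ) : ℚ) / ((b' * j * (m + n) * m' : ℕ) : ℚ)) =
      (n' : ℚ) / m' := by
    rw [Nat.cast_mul (b' * j * (m + n)) n', Nat.cast_mul (b' * j * (m + n)) m',
      mul_div_mul_left _ _ c1]
  rw [e2]
  exact hs

theorem sparse {S : ℕ → ℕ → ℕ → ℕ → Prop}
    (hS : ∀ a b m n : ℕ, Param a b m n → ∃ j : ℕ, 1 ≤ j ∧ S a b (j * m) (j * n)) :
    HoldsOn (fun _ _ _ _ => True) ↔ HoldsOn S := by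
  refine ⟨fun h a b m n _ => h a b m n trivial, fun h => ?_⟩
  rcases joint hS Set.univ Set.univ (fun a b m n hs => h a b m n hs.1) with h1 | h1
  · exact fun a b m n _ => h1 a b m n (Set.mem_univ _)
  · exact fun a b m n _ => h1 a b m n (Set.mem_univ _)

open Pool.Agent.Helper1.CP in
theorem second {a b m n : ℕ} {F G : MvPolynomial (Fin 2) ℂ} (h : Param a b m n)
    (hFG : Conditions a b m n F G)
    (hbr : ∃ c : ℂ, pderiv 0 F * pderiv 1 G - pderiv 1 F * pderiv 0 G = C c) :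
    (∀ i : ℕ, i ≤ b * m / a → ((X 0 + 1 : MvPolynomial (Fin 2) ℂ) ^ (b * m / a - i)) ∣
      weightedHomogeneousComponent (![(0:ℕ), 1] : Fin 2 → ℕ) (b * n / a - i) G) ∧
    (∀ i : ℕ, i ≤ b * n / a → ((X 0 + X 1 : MvPolynomial (Fin 2) ℂ) ^ (b * n / a - i)) ∣
      homogeneousComponent (b * m / a + b * n / a - i) G) := by
  obtain ⟨h1, h2, ⟨μ, rfl⟩, ⟨ν, rfl⟩, h5, h6, h7⟩ := h
  obtain ⟨c1, c2, c3, c4⟩ := hFG
  obtain ⟨c, hc⟩ := hbr
  have ha : 0 < a := by omega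
  have hb : 0 < b := by omega
  have hν : 0 < a * ν := by omega
  have q2 : ∀ x : ℕ, b * (a * x) / a = b * x := by
    intro x
    rw [show b * (a * x) = a * (b * x) by ring, Nat.mul_div_cancel_left _ ha]
  rw [q2, q2] at c4 ⊢
  have p1 : 0 < b * μ := Nat.mul_pos hb (Nat.pos_of_mul_pos_left h1)
  have p2 : 0 < b * ν := Nat.mul_pos hb (Nat.pos_of_mul_pos_left hν)
  have F1 := (HUL.main _ _ h1 hν F).1 c1
  have G1 := (HUL.main _ _ p1 p2 G).1 c4
  obtain ⟨r1, r2, r3⟩ := REP1.main _ _ h1 h2 F F1 ⟨c2, c3⟩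
  obtain ⟨g1, g2⟩ := gb (a := a) (b := b) ha h1 h2 (m1 := b * μ) (n1 := b * ν) (by ring)
    (by ring) r1 r2 r3 (bd_sh G1.1) (br_sh hc)
  exact REP2.main _ _ (Nat.mul_lt_mul_of_pos_left (Nat.lt_of_mul_lt_mul_left h2) hb) G g1 g2

/-- **Theorem.** (1) If the conjecture fails for `(a, b, m, n)` and for `(a', b', m', n')`, then it
fails for `(a, b, λ m', λ n')` if `λ = m + (b' / a') n`, and, for all `k > b' / a'`, if
`λ = m + k n` or `λ = k (m + n)`.

(2) Let `S` be a set of parameters that meets every ray `{(a, b, j m, j n) : j ≥ 1}` of `𝒬`. If the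
conjecture holds for all parameters in `S` with ratio `(a, b)` in a set `A` and slope `n / m` in a set
`B`, then it holds for all parameters with ratio in `A`, or for all parameters with slope in `B`.

(3) The conjecture holds for all parameters if it holds for those in such a set `S`.

(4) The conjecture holds for all parameters if it holds for those for which `gcd (m, n)` is a
factorial.

(5) If `F, G` satisfy the conditions 1 to 5, then `G` satisfies the conditions 2 and 3, with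
`b m / a` and `b n / a` in place of `m` and `n`. -/
theorem result :
    (∀ a b m n a' b' m' n' : ℕ, Fails a b m n → Fails a' b' m' n' →
      Fails a b (m' / a' * (a' * m + b' * n)) (n' / a' * (a' * m + b' * n)) ∧
      ∀ k : ℕ, b' < k * a' →
        Fails a b ((m + k * n) * m') ((m + k * n) * n') ∧
        Fails a b (k * (m + n) * m') (k * (m + n) * n')) ∧
    (∀ S : ℕ → ℕ → ℕ → ℕ → Prop,
      (∀ a b m n : ℕ, Param a b m n → ∃ j : ℕ, 1 ≤ j ∧ S a b (j * m) (j * n)) →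
      ∀ (A : Set (ℕ × ℕ)) (B : Set ℚ),
        HoldsOn (fun a b m n => S a b m n ∧ (a, b) ∈ A ∧ (n / m : ℚ) ∈ B) →
        HoldsOn (fun a b _ _ => (a, b) ∈ A) ∨ HoldsOn (fun _ _ m n => (n / m : ℚ) ∈ B)) ∧
    (∀ S : ℕ → ℕ → ℕ → ℕ → Prop,
      (∀ a b m n : ℕ, Param a b m n → ∃ j : ℕ, 1 ≤ j ∧ S a b (j * m) (j * n)) →
      (HoldsOn (fun _ _ _ _ => True) ↔ HoldsOn S)) ∧
    (HoldsOn (fun _ _ _ _ => True) ↔
      HoldsOn (fun _ _ m n => ∃ t : ℕ, Nat.gcd m n = Nat.factorial t)) ∧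
    (∀ a b m n : ℕ, Param a b m n → ∀ F G : MvPolynomial (Fin 2) ℂ, Conditions a b m n F G →
      (∃ c : ℂ, pderiv 0 F * pderiv 1 G - pderiv 1 F * pderiv 0 G = C c) →
      (∀ i : ℕ, i ≤ b * m / a → ((X 0 + 1 : MvPolynomial (Fin 2) ℂ) ^ (b * m / a - i)) ∣
        weightedHomogeneousComponent (![(0:ℕ), 1] : Fin 2 → ℕ) (b * n / a - i) G) ∧
      (∀ i : ℕ, i ≤ b * n / a → ((X 0 + X 1 : MvPolynomial (Fin 2) ℂ) ^ (b * n / a - i)) ∣
        homogeneousComponent (b * m / a + b * n / a - i) G)) := by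
  refine ⟨fun _ _ _ _ _ _ _ _ h h' => ⟨fails_comp h h', fun k hk =>
    ⟨fails_shear h h' hk, fails_ray h h' hk⟩⟩, fun S hS => joint hS, fun S hS => sparse hS,
    sparse ?_, fun _ _ _ _ h _ _ hFG hbr => second h hFG hbr⟩
  intro a b m n h
  have hg : 0 < Nat.gcd m n := Nat.gcd_pos_of_pos_left _ h.1
  refine ⟨Nat.factorial (Nat.gcd m n - 1), Nat.factorial_pos _, Nat.gcd m n, ?_⟩
  rw [Nat.gcd_mul_left]
  obtain ⟨g, hg2⟩ : ∃ g, Nat.gcd m n = g + 1 := ⟨Nat.gcd m n - 1, by omega⟩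
  rw [hg2, Nat.factorial_succ]
  simp [mul_comm]

end Pool.Agent.Results.MP_2d59ee_ag.Composition
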