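import Pool.Agent.Helper1.TZ.Count2

/-!
# Degrees of Keller pairs are sparse

The pairs of degrees of two complex polynomials in two variables with a nonzero constant Jacobian
determinant form a set of density zero, with a power saving.
-/

set_option autoImplicit false

namespace Pool.Agent.Results.MP_2d59ee_ag.KellerDegreePairs

open MvPolynomial Pool.Agent.Helper1.TZ

theorem result (N : ℕ) (hN : 1 ≤ N) :
    ∃ S : Finset (ℕ × ℕ), (S.card : ℝ) ≤ 7 * (N : ℝ) ^ (5 / 3 : ℝ) * (1 + Real.log N) ∧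
      ∀ F G : MvPolynomial (Fin 2) ℂ, ∀ c : ℂ, c ≠ 0 →
        pderiv 0 F * pderiv 1 G - pderiv 1 F * pderiv 0 G = C c →
        F.totalDegree ≤ G.totalDegree → G.totalDegree ≤ N →
        (F.totalDegree, G.totalDegree) ∈ S ∧
        ∀ a b D : ℕ, 2 ≤ a → 2 ≤ b → Nat.gcd a b = 1 → F.totalDegree = a * D →
          G.totalDegree = b * D →
          ∃ j ρ w : ℕ, 0 < j ∧ j < D ∧ 0 < w ∧ w + 3 * D ≤ D ^ 2 + 1 ∧
            (a + b) * j = ρ * w + 1 ∧ (ρ ∣ a ∨ ρ ∣ b) := by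
  obtain ⟨T, hT⟩ := card_Se hN
  refine ⟨Se N T, hT, ?_⟩
  intro F G c hc hJ h1 h2
  refine ⟨mem_Se' hc hJ rfl rfl h1 h2, ?_⟩
  intro a b D ha hb hab h3 h4
  obtain ⟨n0, u0, i0, i1, i3⟩ := keller_crit ha hb hab hc hJ h3 h4
  obtain ⟨j, ρ, w, k1, k2, k3, k4, k5, k6⟩ := i3
  refine ⟨j, ρ, w, k1, ?_, k3, ?_, k5, k6⟩
  · have : (j : ℤ) ≤ n0 := by exact_mod_cast k2
    zify; linarith
  · have : (w : ℤ) ≤ u0 := by exact_mod_cast k4
    zify; linarith

end Pool.Agent.Results.MP_2d59ee_ag.KellerDegreePairs
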