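import Pool.Agent.Helper1.TZ.Level
import Pool.Agent.Helper1.TZ.Count

/-!
# Thin trapezoids

If `(a, b, m, n)` is a counterexample then a divisor `ρ` of `a` or of `b` satisfies
`(a + b) j = ρ w + 1` with `0 < w < n / a - m / a`. Hence `(a, b)` lies on one of finitely many lines
which depend on `(n - m) / a` only, and not on `m`. For bounded `(n - m) / a` this holds for few
pairs `(a, b)` only.
-/

set_option autoImplicit false

namespace Pool.Agent.Results.MP_2d59ee_ag.ThinTrapezoids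

open MvPolynomial Pool.Agent.TH207 Pool.Agent.Helper1.TZ

theorem lines {a b j ρ w : ℕ} (ha : 2 ≤ a) (hab : a < b) (hj : 0 < j)
    (he : (a + b) * j = ρ * w + 1) (hd : ρ ∣ a ∨ ρ ∣ b) :
    ∃ t j' α : ℕ, 0 < t ∧ 0 < j' ∧ 0 < α ∧ t * j' + α = w ∧
      (t * (j' * b) = α * a + t ∨ t * (j' * a) = α * b + t) := by
  have hρ0 : 0 < ρ := by
    rcases Nat.eq_zero_or_pos ρ with h0 | h0
    · subst h0
      rcases hd with h | h
      · have := Nat.eq_zero_of_zero_dvd h; omega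
      · have := Nat.eq_zero_of_zero_dvd h; omega
    · exact h0
  rcases hd with ⟨t, ht⟩ | ⟨t, ht⟩
  · have ht0 : 0 < t := by
      rcases Nat.eq_zero_or_pos t with h0 | h0
      · subst h0; omega
      · exact h0
    have hbj : 2 * 1 ≤ b * j := Nat.mul_le_mul (by omega) hj
    have e1 : ρ * (t * j) + b * j = ρ * w + 1 := by
      rw [← he, ht]; ring
    have h1 : t * j < w := by
      by_contra hcon
      push Not at hcon
      have : ρ * w ≤ ρ * (t * j) := Nat.mul_le_mul_left _ hcon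
      omega
    obtain ⟨α, hα⟩ : ∃ α, w = t * j + α := ⟨w - t * j, by omega⟩
    have e2 : b * j = ρ * α + 1 := by
      rw [hα, mul_add] at e1
      omega
    refine ⟨t, j, α, ht0, hj, by omega, hα.symm, Or.inl ?_⟩
    calc t * (j * b) = t * (b * j) := by ring
      _ = α * a + t := by rw [e2, ht]; ring
  · have ht0 : 0 < t := by
      rcases Nat.eq_zero_or_pos t with h0 | h0
      · subst h0; omega
      · exact h0
    have haj : 2 * 1 ≤ a * j := Nat.mul_le_mul ha hj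
    have e1 : ρ * (t * j) + a * j = ρ * w + 1 := by
      rw [← he, ht]; ring
    have h1 : t * j < w := by
      by_contra hcon
      push Not at hcon
      have : ρ * w ≤ ρ * (t * j) := Nat.mul_le_mul_left _ hcon
      omega
    obtain ⟨α, hα⟩ : ∃ α, w = t * j + α := ⟨w - t * j, by omega⟩
    have e2 : a * j = ρ * α + 1 := by
      rw [hα, mul_add] at e1
      omega
    refine ⟨t, j, α, ht0, hj, by omega, hα.symm, Or.inr ?_⟩
    calc t * (j * a) = t * (a * j) := by ring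
      _ = α * b + t := by rw [e2, ht]; ring

theorem result (W Y : ℕ) (_hW : 1 ≤ W) :
    ∃ S : Finset (ℕ × ℕ), (S.card : ℝ) ≤ 2 * W * (Y + W) * (1 + Real.log W) ∧
      ∀ (a b m n : ℕ), 0 < m → m < n → a ∣ m → a ∣ n → Nat.gcd a b = 1 → 2 ≤ a → a < b →
        b ≤ Y → n ≤ m + W * a →
      ∀ F G : MvPolynomial (Fin 2) ℂ,
        convexHull ℝ (insert ((0:ℝ), (0:ℝ))
          ((fun d : Fin 2 →₀ ℕ => ((d 0 : ℝ), (d 1 : ℝ))) '' (↑F.support : Set (Fin 2 →₀ ℕ))))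
          = {p : ℝ × ℝ | 0 ≤ p.2 ∧ p.2 ≤ (n : ℝ) ∧ 0 ≤ p.1 ∧ p.1 ≤ (m : ℝ) + (n : ℝ) - p.2} →
        convexHull ℝ (insert ((0:ℝ), (0:ℝ))
          ((fun d : Fin 2 →₀ ℕ => ((d 0 : ℝ), (d 1 : ℝ))) ''
            (↑(F - X 0 ^ m * X 1 ^ n).support : Set (Fin 2 →₀ ℕ))))
          ⊂ convexHull ℝ (insert ((0:ℝ), (0:ℝ))
          ((fun d : Fin 2 →₀ ℕ => ((d 0 : ℝ), (d 1 : ℝ))) '' (↑F.support : Set (Fin 2 →₀ ℕ)))) →
        (∀ i : ℕ, i ≤ m →
          ((X 0 + 1 : MvPolynomial (Fin 2) ℂ) ^ (m - i)) ∣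
            weightedHomogeneousComponent (![(0:ℕ), 1] : Fin 2 → ℕ) (n - i) F) →
        (∀ i : ℕ, i ≤ n →
          ((X 0 + X 1 : MvPolynomial (Fin 2) ℂ) ^ (n - i)) ∣
            homogeneousComponent (m + n - i) F) →
        convexHull ℝ (insert ((0:ℝ), (0:ℝ))
          ((fun d : Fin 2 →₀ ℕ => ((d 0 : ℝ), (d 1 : ℝ))) '' (↑G.support : Set (Fin 2 →₀ ℕ))))
          = {p : ℝ × ℝ | 0 ≤ p.2 ∧ p.2 ≤ ((b * n / a : ℕ) : ℝ) ∧ 0 ≤ p.1 ∧
              p.1 ≤ ((b * m / a : ℕ) : ℝ) + ((b * n / a : ℕ) : ℝ) - p.2} →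
        convexHull ℝ (insert ((0:ℝ), (0:ℝ))
          ((fun d : Fin 2 →₀ ℕ => ((d 0 : ℝ), (d 1 : ℝ))) ''
            (↑(G - X 0 ^ (b * m / a) * X 1 ^ (b * n / a)).support : Set (Fin 2 →₀ ℕ))))
          ⊂ convexHull ℝ (insert ((0:ℝ), (0:ℝ))
          ((fun d : Fin 2 →₀ ℕ => ((d 0 : ℝ), (d 1 : ℝ))) '' (↑G.support : Set (Fin 2 →₀ ℕ)))) →
        (∃ c : ℂ, pderiv 0 F * pderiv 1 G - pderiv 1 F * pderiv 0 G = C c) →
        pderiv 0 F * pderiv 1 G - pderiv 1 F * pderiv 0 G ≠ 0 →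
        (a, b) ∈ S ∧ ∃ t j α : ℕ, 0 < t ∧ 0 < j ∧ 0 < α ∧ m / a + (t * j + α) < n / a ∧
          (t * (j * b) = α * a + t ∨ t * (j * a) = α * b + t) := by
  refine ⟨S1 Y W W ∪ S2 Y W W, ?_, ?_⟩
  · have := card_S Y W W
    exact this
  intro a b m n hm hmn ham han hab ha hlt hbY hmW F G h1 _ _ h3 h4 _ h5 h6
  obtain ⟨c, hc⟩ := h5
  have hc0 : c ≠ 0 := by
    rintro rfl
    rw [map_zero] at hc
    exact h6 hc
  obtain ⟨p, rfl⟩ := ham
  obtain ⟨q, rfl⟩ := han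
  have ha0 : 0 < a := by omega
  have hp : 0 < p := Nat.pos_of_ne_zero (by rintro rfl; simp at hm)
  have hpq : p < q := Nat.lt_of_mul_lt_mul_left hmn
  have hqW : q ≤ p + W := by
    apply Nat.le_of_mul_le_mul_left _ ha0
    have : a * p + W * a = a * (p + W) := by ring
    rw [← this]; exact hmW
  have e1 : b * (a * q) / a = b * q := by
    have : b * (a * q) = b * q * a := by ring
    rw [this, Nat.mul_div_cancel _ ha0]
  have e2 : b * (a * p) / a = b * p := by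
    have : b * (a * p) = b * p * a := by ring
    rw [this, Nat.mul_div_cancel _ ha0]
  rw [e1, e2] at h4
  obtain ⟨f1, f2⟩ := Tz.hull (Nat.mul_pos ha0 (by omega)) h1
  obtain ⟨g1, g2⟩ := Tz.hull (Nat.mul_pos (by omega) (by omega)) h4
  obtain ⟨n0, u0, i0, i1, i2, i3⟩ := Pool.Agent.Helper1.TZ.main ha (by omega) hab hp hpq hc0 hc
    f1 f2 h3 (fun d hd => (g1 d hd).2) g2
  rw [Nat.mul_div_cancel_left _ ha0, Nat.mul_div_cancel_left _ ha0]
  obtain ⟨j, ρ, w, k1, k2, k3, k4, k5, k6⟩ := i3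
  have hwq : p + w < q := by
    have : (w : ℤ) ≤ u0 := by exact_mod_cast k4
    zify; linarith
  obtain ⟨t, j', α, l1, l2, l3, l4, l5⟩ := lines ha hlt k1 k5 k6
  refine ⟨?_, t, j', α, l1, l2, l3, by rw [l4]; exact hwq, l5⟩
  apply mem_S ha hlt hbY
  refine ⟨j, ρ, w, k1, ?_, k3, by omega, k5, k6⟩
  have hρb : ρ ≤ b := by
    rcases k6 with h | h
    · exact (Nat.le_of_dvd ha0 h).trans hlt.le
    · exact Nat.le_of_dvd (by omega) h
  have hjw : j ≤ w := by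
    by_contra hcon
    push Not at hcon
    have z1 : (a + b) * (w + 1) ≤ (a + b) * j := Nat.mul_le_mul_left _ hcon
    have z2 : ρ * w ≤ b * w := Nat.mul_le_mul_right _ hρb
    nlinarith
  omega

end Pool.Agent.Results.MP_2d59ee_ag.ThinTrapezoids
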